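import Pool.Agent.Lib.MP_7d3fda_nt.Pair
import Pool.Agent.Lib.MP_7d3fda_nt.Count

/-! Rank at least two in the quadratic twist family of any elliptic curve over `ℚ` with
`j = 1728`: at least `c D^(1/4) / (log D)^2` fundamental discriminants `|d| ≤ D`, of either
sign, inside the squares modulo any `M`. -/

namespace Pool.Agent.Results.MP_7d3fda_nt.J1728

/-- The quadratic twist of `W` by `d`: `y^2 = x^3 - 27 c₄ d^2 x - 54 c₆ d^3`. -/
def twist (W : WeierstrassCurve ℚ) (d : ℤ) : WeierstrassCurve ℚ :=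
  ⟨0, 0, 0, -27 * W.c₄ * (d : ℚ) ^ 2, -54 * W.c₆ * (d : ℚ) ^ 3⟩

open Pool.Agent.Lib.MP_7d3fda_nt in
theorem result (W : WeierstrassCurve ℚ) [W.IsElliptic] (hj : W.j = 1728) (M : ℕ) (hM : 0 < M)
    (ε : ℤ) (hε : ε = 1 ∨ ε = -1) :
    ∃ c : ℝ, 0 < c ∧ ∀ᶠ D : ℝ in Filter.atTop, c * D ^ (1 / 4 : ℝ) / Real.log D ^ 2 ≤
      (({d : ℤ | |(d : ℝ)| ≤ D ∧ Squarefree d ∧ d % 8 = 1 ∧ 0 < ε * d ∧
        IsUnit (d : ZMod M) ∧ IsSquare (d : ZMod M) ∧
        2 ≤ Module.rank ℤ (twist W d).toAffine.Point}).ncard : ℝ) := by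
  have hD : W.Δ ≠ 0 := W.coe_Δ' ▸ W.Δ'.ne_zero
  have h4 : W.c₄ ^ 3 = 1728 * W.Δ := by
    rw [WeierstrassCurve.j, Units.val_inv_eq_inv_val, W.coe_Δ'] at hj
    field_simp at hj
    linear_combination hj
  have h6 : W.c₆ = 0 := by
    have := W.c_relation
    exact pow_eq_zero_iff two_ne_zero |>.1 (by linear_combination this + h4)
  have h40 : -27 * W.c₄ ≠ 0 := by
    intro h
    have : W.c₄ = 0 := by linarith
    rw [this] at h4
    exact hD (by linarith)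
  obtain ⟨A, hA⟩ : ∃ A : ℚ, A = -27 * W.c₄ := ⟨_, rfl⟩
  rw [← hA] at h40
  have hden : (A.den : ℚ) ≠ 0 := by positivity
  have ha : A.num * (A.den : ℤ) ^ 3 ≠ 0 := mul_ne_zero (Rat.num_ne_zero.2 h40) (by positivity)
  obtain ⟨Q, L, C, hQ, hC, h⟩ := pair ha (N := 8 * M) (by omega) hε
  refine count _ (L := L) hQ hC ?_
  intro u v hu hv hL huv hm
  obtain ⟨d, d1, d2, d3, d4, d5, d6, d7, d8⟩ := h u v hu hv hL huv hm
  refine ⟨d, d1.ne_zero, ⟨d1, ?_, d2, ?_, ?_, ?_⟩, d3, d4, d5⟩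
  · have a1 := d6.map (ZMod.castHom (dvd_mul_right 8 M) (ZMod 8))
    have a2 := d7.map (ZMod.castHom (dvd_mul_right 8 M) (ZMod 8))
    rw [map_intCast] at a1 a2
    have a3 : ∀ x : ZMod 8, IsUnit x → IsSquare x → x = ((1 : ℤ) : ZMod 8) := by decide
    exact (ZMod.intCast_eq_intCast_iff' d 1 8).1 (a3 _ a1 a2)
  · simpa using d6.map (ZMod.castHom (dvd_mul_left M 8) (ZMod M))
  · simpa using d7.map (ZMod.castHom (dvd_mul_left M 8) (ZMod M))
  · have e : (twist W d).toAffine =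
        cv (((A.num * (A.den : ℤ) ^ 3 : ℤ) : ℚ) / (A.den : ℚ) ^ 4 * (d : ℚ) ^ 2) := by
      have e1 : ((A.num * (A.den : ℤ) ^ 3 : ℤ) : ℚ) / (A.den : ℚ) ^ 4 = A := by
        conv_rhs => rw [← A.num_div_den]
        push_cast
        field_simp
      rw [e1, hA]
      simp [twist, cv, h6, WeierstrassCurve.toAffine]
    rw [e]
    exact d8 _ hden

end Pool.Agent.Results.MP_7d3fda_nt.J1728
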