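import Pool.Agent.FS.JZero.Main

/-! Rank at least two in the quadratic twist family of any elliptic curve over `ℚ` with `j = 0`
and no rational point of order two: at least `c D^(1/20) / (log D)^2` fundamental discriminants
`|d| ≤ D`, of either sign, inside the squares modulo any `M`. -/

namespace Pool.Agent.Results.MP_7d3fda_nt.JZero

open Pool.Agent.FS.JZero in
theorem result (W : WeierstrassCurve ℚ) [W.IsElliptic] (hj : W.j = 0)
    (h2 : ∀ x : ℚ, ¬W.Ψ₂Sq.IsRoot x) (M : ℕ) (hM : 0 < M) (ε : ℤ) (hε : ε = 1 ∨ ε = -1) :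
    ∃ c : ℝ, 0 < c ∧ ∀ᶠ D : ℝ in Filter.atTop, c * D ^ (1 / 20 : ℝ) / Real.log D ^ 2 ≤
      (({d : ℤ | |(d : ℝ)| ≤ D ∧ Squarefree d ∧ d % 8 = 1 ∧ 0 < ε * d ∧
        IsUnit (d : ZMod M) ∧ IsSquare (d : ZMod M) ∧
        2 ≤ Module.rank ℤ (WeierstrassCurve.Affine.Point
          (⟨0, 0, 0, -27 * W.c₄ * (d : ℚ) ^ 2, -54 * W.c₆ * (d : ℚ) ^ 3⟩ :
            WeierstrassCurve.Affine ℚ))}).ncard : ℝ) := by
  have h4 : W.c₄ = 0 := W.j_eq_zero_iff.1 hj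
  obtain ⟨A, hA⟩ : ∃ A : ℚ, A = -54 * W.c₆ := ⟨_, rfl⟩
  have hden : (A.den : ℚ) ≠ 0 := by positivity
  have e1 : ((A.num * (A.den : ℤ) ^ 5 : ℤ) : ℚ) = A * (A.den : ℚ) ^ 6 := by
    push_cast
    rw [← A.mul_den_eq_num]
    ring
  have hk0 : ∀ x : ℚ, x ^ 3 + ((A.num * (A.den : ℤ) ^ 5 : ℤ) : ℚ) ≠ 0 := by
    intro x hx
    rw [e1] at hx
    have hx' : (x / (A.den : ℚ) ^ 2) ^ 3 + A = 0 := by
      field_simp
      linear_combination hx
    generalize x / (A.den : ℚ) ^ 2 = y at hx'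
    refine h2 ((y - 3 * W.b₂) / 36) ?_
    rw [Polynomial.IsRoot, WeierstrassCurve.Ψ₂Sq]
    simp only [Polynomial.eval_add, Polynomial.eval_mul, Polynomial.eval_C, Polynomial.eval_pow,
      Polynomial.eval_X]
    rw [hA, WeierstrassCurve.c₆] at hx'
    rw [WeierstrassCurve.c₄] at h4
    linear_combination (1 / 11664) * hx' - (27 * y / 11664) * h4
  obtain ⟨L, C, hC, h⟩ := pt hk0 hM hε
  refine count _ (L := L) hC ?_
  intro u v hu hv hL huv hm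
  obtain ⟨d, d1, d2, d3, d4, d5, d6, d7, d8⟩ := h u v hu hv hL huv hm
  refine ⟨d, d1.ne_zero, ⟨d1, ?_, d2, ?_, ?_, ?_⟩, d3, d4, d5⟩
  · have a1 := d6.map (ZMod.castHom (dvd_mul_right 8 M) (ZMod 8))
    have a2 := d7.map (ZMod.castHom (dvd_mul_right 8 M) (ZMod 8))
    rw [map_intCast] at a1 a2
    have a3 : ∀ x : ZMod 8, IsUnit x → IsSquare x → x = ((1 : ℤ) : ZMod 8) := by decide
    exact (ZMod.intCast_eq_intCast_iff' d 1 8).1 (a3 _ a1 a2)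
  · simpa using d6.map (ZMod.castHom (dvd_mul_left M 8) (ZMod M))
  · simpa using d7.map (ZMod.castHom (dvd_mul_left M 8) (ZMod M))
  · have e : (⟨0, 0, 0, -27 * W.c₄ * (d : ℚ) ^ 2, -54 * W.c₆ * (d : ℚ) ^ 3⟩ :
        WeierstrassCurve.Affine ℚ) =
        cv (((A.num * (A.den : ℤ) ^ 5 : ℤ) : ℚ) * ((d : ℚ) / (A.den : ℚ) ^ 2) ^ 3) := by
      rw [e1, h4, ← hA, cv]
      congr 1
      · ring
      · field_simp
    rw [e]
    exact d8 _ hden

end Pool.Agent.Results.MP_7d3fda_nt.JZero
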