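import Pool.Agent.Lib.MP_7d3fda_nt.R3.XFinal

/-! Every elliptic curve over the rationals with full rational two-torsion and a rational
three-isogeny has at least `c D^(1/3) / (log D)^6` quadratic twists of rank exactly two by
fundamental discriminants `d`, `|d| ≤ D`. -/

namespace Pool.Agent.Results.MP_7d3fda_nt.RankTwoFamily

theorem result (W : WeierstrassCurve ℚ) [W.IsElliptic] (h2 : W.Ψ₂Sq.Splits)
    (h3 : ∃ x : ℚ, W.Ψ₃.IsRoot x) : ∃ c : ℝ, 0 < c ∧ ∃ D₀ : ℝ, ∀ D : ℝ, D₀ ≤ D →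
    c * D ^ (1 / 3 : ℝ) / Real.log D ^ 6 ≤
      (Set.ncard {d : ℤ | |(d : ℝ)| ≤ D ∧
        ((d % 4 = 1 ∧ Squarefree d ∨ ∃ k : ℤ, d = 4 * k ∧ (k % 4 = 2 ∨ k % 4 = 3) ∧ Squarefree k) ∧
          Module.rank ℤ (WeierstrassCurve.Affine.Point
            (⟨0, (d : ℚ) * (W.b₂ / 4), 0, (d : ℚ) ^ 2 * (W.b₄ / 2), (d : ℚ) ^ 3 * (W.b₆ / 4)⟩ :
              WeierstrassCurve.Affine ℚ)) = 2)} : ℝ) :=
  Pool.Agent.Lib.MP_7d3fda_nt.R3.final W h2 h3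

end Pool.Agent.Results.MP_7d3fda_nt.RankTwoFamily
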